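import Pool.Agent.H576P.LinMain

open Pool.Agent.H576.Lin

/-- `MP_60922f_co`, a class of colourings: let `S` be a set of primes with convergent sum of
reciprocals and `M ≥ 1`, and let `c` be a colouring (any set of colours) such that `c (T u) = c T`
whenever `T ≥ 1` and `u ≡ 1 (mod M)` has no prime factor in `S`.  Then there is an infinite
increasing sequence of positive integers all of whose pairwise sums and pairwise products
(`i = j` allowed) have the colour of `4`. -/
theorem Pool.Agent.Results.MP_60922f_co.SparsePrimeColourings.result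
    (S : Set ℕ) (hS : ∀ p ∈ S, p.Prime) (hsum : Summable (fun p : S => (1 : ℝ) / (p : ℕ)))
    (M : ℕ) (hM : 0 < M) {κ : Type*} (c : ℕ → κ)
    (hc : ∀ T u : ℕ, 0 < T → 0 < u → u ≡ 1 [MOD M] → (∀ p ∈ S, ¬ p ∣ u) → c (T * u) = c T) :
    ∃ f : ℕ → ℕ, StrictMono f ∧ (∀ i, 0 < f i) ∧ ∀ i j, c (f i + f j) = c 4 ∧ c (f i * f j) = c 4 :=
  mainL S hS hsum M hM c hc
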